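import Pool.Agent.Helper45.PQ.StK

set_option autoImplicit false

open Module Classical
open scoped LinearAlgebra.Projectivization

namespace Pool.Agent.Helper21.PQ

open Pool.Agent.Helper45.PQ

universe u v

private lemma core {α β : Type*} (Zs Z' : Finset α) (hsub : Z' ⊆ Zs) (B : Finset β)
    (E : α → Finset β) (c : α → β → ℝ) (q e' N : ℝ) (he : 1 ≤ e') (heq : e' + 2 ≤ q) (hN : 0 < N)
    (hA : (Z'.card : ℝ) = q ^ 2 + 1) (hZs : (Zs.card : ℝ) = (q + 1) * (q ^ 2 + 1))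
    (hB : (B.card : ℝ) = q - 1) (hEB : ∀ z ∈ Z', E z ⊆ B) (hEc : ∀ z ∈ Z', ((E z).card : ℝ) = e')
    (hE0 : ∀ z ∈ Z', ∀ b ∈ E z, c z b = 0)
    (h1 : ∑ z ∈ Zs, ∑ b ∈ B, c z b = q ^ 3 * N)
    (h2 : ∑ z ∈ Zs, ∑ b ∈ B, c z b ^ 2 ≤ q ^ 3 * N + q ^ 2 * N ^ 2)
    (h3 : q * (q - 1) * N ≤ ∑ z ∈ Z', ∑ b ∈ B, c z b) :
    N * ((q ^ 2 + 1) * e' + 1 + (q ^ 2 * (q - 1) - (q - 1 - e') * (q ^ 2 + 1)) ^ 2 /
      ((q ^ 2 + 1) * (q - 1 - e'))) ≤ q ^ 5 := by
  obtain ⟨A, hAd⟩ : ∃ A : ℝ, A = q ^ 2 + 1 := ⟨_, rfl⟩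
  obtain ⟨L, hL⟩ : ∃ L : ℝ, L = q - 1 - e' := ⟨_, rfl⟩
  obtain ⟨D, hD⟩ : ∃ D : ℝ, D = q ^ 2 * (q - 1) - L * A := ⟨_, rfl⟩
  obtain ⟨θ, hθ⟩ : ∃ θ : ℝ, θ = N * D / (A * L) := ⟨_, rfl⟩
  have hApos : 0 < A := by rw [hAd]; positivity
  have hLpos : 0 < L := by rw [hL]; linarith
  have hDnn : 0 ≤ D := by
    rw [hD, hL, hAd]
    nlinarith [sq_nonneg q, mul_nonneg (sub_nonneg.mpr he) (sq_nonneg q), sq_nonneg (q - 1)]
  have hθ0 : 0 ≤ θ := by
    rw [hθ]
    exact div_nonneg (mul_nonneg hN.le hDnn) (mul_pos hApos hLpos).le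
  have hθe : θ * (A * L) = N * D := by
    rw [hθ]
    exact div_mul_cancel₀ _ (mul_pos hApos hLpos).ne'
  -- total sum
  have hS : ∑ z ∈ Zs, ∑ b ∈ B, (q * c z b - N) ^ 2 ≤ q ^ 5 * N - N ^ 2 := by
    have e1 : ∑ z ∈ Zs, ∑ b ∈ B, (q * c z b - N) ^ 2 =
        q ^ 2 * (∑ z ∈ Zs, ∑ b ∈ B, c z b ^ 2) - 2 * q * N * (∑ z ∈ Zs, ∑ b ∈ B, c z b) +
          (Zs.card : ℝ) * ((B.card : ℝ) * N ^ 2) := by
      have e2 : ∀ z ∈ Zs, ∑ b ∈ B, (q * c z b - N) ^ 2 =
          q ^ 2 * (∑ b ∈ B, c z b ^ 2) - 2 * q * N * (∑ b ∈ B, c z b) + (B.card : ℝ) * N ^ 2 := by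
        intro z _
        rw [Finset.mul_sum, Finset.mul_sum, ← Finset.sum_sub_distrib, ← nsmul_eq_mul,
          ← Finset.sum_const, ← Finset.sum_add_distrib]
        apply Finset.sum_congr rfl
        intro b _
        ring
      rw [Finset.sum_congr rfl e2, Finset.sum_add_distrib, Finset.sum_sub_distrib, Finset.sum_const,
        nsmul_eq_mul, Finset.mul_sum, Finset.mul_sum]
    rw [e1, h1, hZs, hB]
    have h2' := mul_le_mul_of_nonneg_left h2 (sq_nonneg q)
    nlinarith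
  -- lower bound on Z'
  have hlow : ∀ z ∈ Z', e' * N ^ 2 + 2 * θ * (q * (∑ b ∈ B, c z b) - L * N) - L * θ ^ 2 ≤
      ∑ b ∈ B, (q * c z b - N) ^ 2 := by
    intro z hz
    have hs := Finset.sum_sdiff (hEB z hz) (f := fun b => (q * c z b - N) ^ 2)
    have hs' := Finset.sum_sdiff (hEB z hz) (f := fun b => c z b)
    have hc0 : ∑ b ∈ E z, c z b = 0 := Finset.sum_eq_zero (hE0 z hz)
    have hc1 : ∑ b ∈ E z, (q * c z b - N) ^ 2 = e' * N ^ 2 := by
      rw [← hEc z hz, ← nsmul_eq_mul, ← Finset.sum_const]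
      apply Finset.sum_congr rfl
      intro b hb
      rw [hE0 z hz b hb]
      ring
    have hcard : ((B \ E z).card : ℝ) = L := by
      have := Finset.card_sdiff_add_card_eq_card (hEB z hz)
      have h' : ((B \ E z).card : ℝ) + ((E z).card : ℝ) = (B.card : ℝ) := by exact_mod_cast this
      rw [hL]
      rw [hEc z hz, hB] at h'
      linarith
    have hc2 : 2 * θ * (q * (∑ b ∈ B \ E z, c z b) - L * N) - L * θ ^ 2 ≤
        ∑ b ∈ B \ E z, (q * c z b - N) ^ 2 := by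
      have e3 : 2 * θ * (q * (∑ b ∈ B \ E z, c z b) - L * N) - L * θ ^ 2 =
          ∑ b ∈ B \ E z, (2 * θ * (q * c z b - N) - θ ^ 2) := by
        rw [Finset.sum_sub_distrib, Finset.sum_const, nsmul_eq_mul, hcard, ← Finset.mul_sum,
          Finset.sum_sub_distrib, Finset.sum_const, nsmul_eq_mul, hcard, ← Finset.mul_sum]
      rw [e3]
      apply Finset.sum_le_sum
      intro b _
      nlinarith [sq_nonneg (q * c z b - N - θ)]
    rw [hc0, add_zero] at hs'
    rw [← hs', ← hs, hc1]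
    linarith
  have hsum : A * (e' * N ^ 2) + 2 * θ * (q * (∑ z ∈ Z', ∑ b ∈ B, c z b) - A * L * N) -
      A * L * θ ^ 2 ≤ q ^ 5 * N - N ^ 2 := by
    have e4 : A * (e' * N ^ 2) + 2 * θ * (q * (∑ z ∈ Z', ∑ b ∈ B, c z b) - A * L * N) -
        A * L * θ ^ 2 =
        ∑ z ∈ Z', (e' * N ^ 2 + 2 * θ * (q * (∑ b ∈ B, c z b) - L * N) - L * θ ^ 2) := by
      rw [Finset.sum_sub_distrib, Finset.sum_add_distrib, Finset.sum_const, Finset.sum_const,
        nsmul_eq_mul, nsmul_eq_mul, hA, ← hAd, ← Finset.mul_sum, Finset.sum_sub_distrib,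
        Finset.sum_const, nsmul_eq_mul, hA, ← hAd, ← Finset.mul_sum]
      ring
    rw [e4]
    calc ∑ z ∈ Z', (e' * N ^ 2 + 2 * θ * (q * (∑ b ∈ B, c z b) - L * N) - L * θ ^ 2) ≤
        ∑ z ∈ Z', ∑ b ∈ B, (q * c z b - N) ^ 2 := Finset.sum_le_sum hlow
      _ ≤ ∑ z ∈ Zs, ∑ b ∈ B, (q * c z b - N) ^ 2 := by
          apply Finset.sum_le_sum_of_subset_of_nonneg hsub
          intro z _ _
          exact Finset.sum_nonneg (fun b _ => sq_nonneg _)
      _ ≤ q ^ 5 * N - N ^ 2 := hS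
  have hq0 : 0 ≤ q := by linarith
  have hmain : A * e' * N ^ 2 + N ^ 2 * (D ^ 2 / (A * L)) ≤ q ^ 5 * N - N ^ 2 := by
    have h5 : 2 * θ * (q * (q * (q - 1) * N) - A * L * N) ≤
        2 * θ * (q * (∑ z ∈ Z', ∑ b ∈ B, c z b) - A * L * N) := by
      apply mul_le_mul_of_nonneg_left _ (by linarith)
      have := mul_le_mul_of_nonneg_left h3 hq0
      linarith
    have h6 : q * (q * (q - 1) * N) - A * L * N = N * D := by rw [hD]; ring
    rw [h6] at h5
    have h7 : 2 * θ * (N * D) - A * L * θ ^ 2 = N ^ 2 * (D ^ 2 / (A * L)) := by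
      rw [hθ]
      field_simp
      ring
    linarith
  have hfin : N * (N * (A * e' + 1 + D ^ 2 / (A * L))) ≤ N * q ^ 5 := by
    nlinarith
  have := le_of_mul_le_mul_left hfin hN
  rw [← hAd, ← hL, ← hD]
  exact this

/-- the inequality on the section -/
theorem hPKM (h1 : StGQA.{u, v}) (h2 : StMMT.{u, v}) (h3 : StFIK) : StPKM.{u, v} := by
  intro F _ _ h2F V _ _ _ _ Q O O' X E e e' hQ hO hO' he he' heq hX hE hXE
  obtain ⟨-, g2, g3, g4⟩ := h1 F V Q hQ
  obtain ⟨cO, -, -⟩ := g4 O hO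
  obtain ⟨cO', pO', nO'⟩ := g4 O' hO'
  obtain ⟨m1, m2⟩ := h2 F h2F V Q hQ O hO X (fun y hy => (hX y hy).1)
  obtain ⟨q, hq⟩ : ∃ q : ℕ, q = Nat.card F := ⟨_, rfl⟩
  rw [← hq] at g2 cO cO' pO' m1 m2 heq ⊢
  obtain ⟨Nn, hNn⟩ : ∃ Nn : ℕ, Nn = ∑ y ∈ O, (X y).card := ⟨_, rfl⟩
  rw [← hNn] at m1 m2
  have hNe : e * (q ^ 2 + 1) ≤ Nn := by
    rw [hNn, ← cO, mul_comm, ← smul_eq_mul, ← Finset.sum_const]
    exact Finset.sum_le_sum (fun y hy => (hX y hy).2)
  have hNpos : 0 < Nn := by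
    have : 0 < e * (q ^ 2 + 1) := Nat.mul_pos he (by positivity)
    omega
  -- the sum over O'
  have hnb : ∀ y ∈ O, q * (q - 1) ≤
      (O'.filter (fun z => QuadraticMap.polar Q y.rep z.rep ≠ 0)).card := by
    intro y hy
    have hc := Finset.card_filter_add_card_filter_not (s := O')
      (fun z => QuadraticMap.polar Q y.rep z.rep = 0)
    have hle : (O'.filter (fun z => QuadraticMap.polar Q y.rep z.rep = 0)).card ≤ q + 1 := by
      by_cases hyO : y ∈ O'
      · have : O'.filter (fun z => QuadraticMap.polar Q y.rep z.rep = 0) ⊆ {y} := by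
          intro z hz
          rw [Finset.mem_filter] at hz
          rw [Finset.mem_singleton]
          by_contra hne
          exact nO' y hyO z hz.1 (Ne.symm hne) hz.2
        have := Finset.card_le_card this
        rw [Finset.card_singleton] at this
        omega
      · rw [pO' y (hO.1 y hy) hyO]
    rw [cO'] at hc
    have hq1 : 1 ≤ q := by omega
    obtain ⟨k, rfl⟩ : ∃ k, q = k + 1 := ⟨q - 1, by omega⟩
    have e1 : (k + 1) * (k + 1 - 1) = k * k + k := by
      rw [Nat.add_sub_cancel]; ring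
    have e2 : (k + 1) ^ 2 = k * k + 2 * k + 1 := by ring
    rw [e1]
    rw [e2] at hc
    have e3 : (O'.filter (fun z => QuadraticMap.polar Q y.rep z.rep ≠ 0)).card =
      (O'.filter (fun z => ¬ QuadraticMap.polar Q y.rep z.rep = 0)).card := rfl
    rw [e3]
    omega
  have hO'sum : q * (q - 1) * Nn ≤
      ∑ z ∈ O', ∑ b ∈ (Finset.univ : Finset F).erase 0, cnt Q O X z.rep b := by
    have key : ∀ z ∈ O', ∑ y ∈ O, (if QuadraticMap.polar Q y.rep z.rep ≠ 0 then (X y).card else 0) ≤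
        ∑ b ∈ (Finset.univ : Finset F).erase 0, cnt Q O X z.rep b := by
      intro z _
      unfold cnt
      rw [Finset.sum_comm]
      apply Finset.sum_le_sum
      intro y hy
      split_ifs with hf
      · have e1 : ∑ b ∈ (Finset.univ : Finset F).erase 0,
            ((X y).filter (fun a => a * b + QuadraticMap.polar Q y.rep z.rep = 0)).card =
            ∑ a ∈ X y, (((Finset.univ : Finset F).erase 0).filter
              (fun b => a * b + QuadraticMap.polar Q y.rep z.rep = 0)).card := by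
          simp only [Finset.card_filter]
          rw [Finset.sum_comm]
        rw [e1, Finset.card_eq_sum_ones]
        apply Finset.sum_le_sum
        intro a ha
        have ha0 : a ≠ 0 := by
          rintro rfl
          exact (hX y hy).1 ha
        rw [Nat.one_le_iff_ne_zero, Finset.card_ne_zero]
        refine ⟨-QuadraticMap.polar Q y.rep z.rep / a, ?_⟩
        rw [Finset.mem_filter, Finset.mem_erase]
        refine ⟨⟨?_, Finset.mem_univ _⟩, ?_⟩
        · exact div_ne_zero (neg_ne_zero.mpr hf) ha0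
        · rw [mul_div_cancel₀ _ ha0, neg_add_cancel]
      · exact Nat.zero_le _
    calc q * (q - 1) * Nn = ∑ y ∈ O, q * (q - 1) * (X y).card := by rw [hNn, Finset.mul_sum]
      _ ≤ ∑ y ∈ O, ∑ z ∈ O', (if QuadraticMap.polar Q y.rep z.rep ≠ 0 then (X y).card else 0) := by
          apply Finset.sum_le_sum
          intro y hy
          rw [← Finset.sum_filter, Finset.sum_const, smul_eq_mul]
          exact Nat.mul_le_mul_right _ (hnb y hy)
      _ = ∑ z ∈ O', ∑ y ∈ O, (if QuadraticMap.polar Q y.rep z.rep ≠ 0 then (X y).card else 0) :=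
          Finset.sum_comm
      _ ≤ _ := Finset.sum_le_sum key
  have hq2 : 2 ≤ q := by omega
  have hBc : ((Finset.univ : Finset F).erase 0).card = q - 1 := by
    rw [Finset.card_erase_of_mem (Finset.mem_univ _), Finset.card_univ, hq,
      Nat.card_eq_fintype_card]
  have hqr : ((q - 1 : ℕ) : ℝ) = (q : ℝ) - 1 := by
    rw [Nat.cast_sub (by omega)]
    norm_num
  have hfinal := core (sp Q (⊤ : Submodule F V)) O'
    (fun z hz => mem_sp.2 ⟨Submodule.mem_top, hO'.1 z hz⟩) ((Finset.univ : Finset F).erase 0) E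
    (fun z b => (cnt Q O X z.rep b : ℝ)) q e' Nn (by exact_mod_cast he') (by exact_mod_cast heq)
    (by exact_mod_cast hNpos) (by rw [cO']; push_cast; ring) (by rw [g2]; push_cast; ring)
    (by rw [hBc, hqr])
    (by
      intro z hz b hb
      rw [Finset.mem_erase]
      refine ⟨?_, Finset.mem_univ _⟩
      rintro rfl
      exact (hE z hz).1 hb)
    (fun z hz => by rw [(hE z hz).2])
    (by
      intro z hz b hb
      show ((cnt Q O X z.rep b : ℕ) : ℝ) = 0
      rw [Nat.cast_eq_zero]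
      unfold cnt
      apply Finset.sum_eq_zero
      intro y hy
      rw [Finset.card_eq_zero, Finset.filter_eq_empty_iff]
      intro a ha
      exact hXE y hy z hz a ha b hb)
    (by exact_mod_cast m1) (by exact_mod_cast m2)
    (by
      rw [← hqr]
      exact_mod_cast hO'sum)
  exact h3 q e e' Nn he he' heq (by exact_mod_cast hNe) hfinal

end Pool.Agent.Helper21.PQ
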